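import Pool.Agent.H86.KZ.KDD

set_option autoImplicit false

namespace Pool.KZ

section

variable {K M : Type} [Field K] [AddCommGroup M] [Module K M]

theorem kd_apply (x : ℕ → M →ₗ[K] M) (c : Finset ℕ → M) (T : Finset ℕ) :
    kd x c T = ∑ j ∈ T, sg j T • x j (c (T.erase j)) := rfl

theorem sg_sq (j : ℕ) (T : Finset ℕ) : sg j T * sg j T = 1 := by
  unfold sg
  rw [← pow_add, ← two_mul, pow_mul]
  norm_num

theorem sg_insert_self (j : ℕ) (T : Finset ℕ) : sg j (insert j T) = sg j T := by
  unfold sg
  rw [Finset.filter_insert, if_neg (lt_irrefl j)]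

theorem sg_ins {i j : ℕ} (T : Finset ℕ) (hi : i ∈ T) (hj : j ∉ T) :
    sg j T * sg i (insert j T) = - (sg i T * sg j (T.erase i)) := by
  have hij : i ≠ j := fun h => hj (h ▸ hi)
  have h1 := sg_swap (insert j T) (Finset.mem_insert_of_mem hi) (Finset.mem_insert_self j T) hij
  rw [Finset.erase_insert hj, sg_insert_self,
    Finset.erase_insert_of_ne (Ne.symm hij), sg_insert_self] at h1
  have e1 := sg_sq i T
  have e2 := sg_sq i (insert j T)
  linear_combination (sg i T * sg i (insert j T)) * h1 - sg j T * sg i (insert j T) * e1 -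
    (sg i T * sg j (T.erase i)) * e2

/-- The differential of the values at the sets containing `j`. -/
theorem kd_ins (x : ℕ → M →ₗ[K] M) (c : Finset ℕ → M) (c2 : Finset ℕ → M) (j : ℕ)
    (T : Finset ℕ) (hj : j ∉ T) (hc2 : ∀ i ∈ T, c2 (T.erase i) = sg j (T.erase i) •
      c (insert j (T.erase i))) :
    sg j T • kd x c (insert j T) = x j (c T) - kd x c2 T := by
  rw [kd_apply, kd_apply, Finset.sum_insert hj, Finset.erase_insert hj, sg_insert_self,
    smul_add, smul_smul, sg_sq, one_smul, sub_eq_add_neg, ← Finset.sum_neg_distrib,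
    Finset.smul_sum]
  congr 1
  refine Finset.sum_congr rfl fun i hi => ?_
  have hij : i ≠ j := fun h => hj (h ▸ hi)
  rw [hc2 i hi, smul_smul, sg_ins T hi hj, map_zsmul, smul_smul,
    Finset.erase_insert_of_ne (Ne.symm hij), neg_smul]

/-- The differential on `T` only depends on the values on the sets `T.erase i`. -/
theorem kd_congr (x : ℕ → M →ₗ[K] M) (c c' : Finset ℕ → M) (T : Finset ℕ)
    (h : ∀ i ∈ T, c (T.erase i) = c' (T.erase i)) : kd x c T = kd x c' T := by
  rw [kd_apply, kd_apply]
  exact Finset.sum_congr rfl fun i hi => by rw [h i hi]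

theorem kd_comm (x : ℕ → M →ₗ[K] M) (hx : Cm x) (b : Finset ℕ → M) (j : ℕ) (T : Finset ℕ) :
    kd x (fun T => x j (b T)) T = x j (kd x b T) := by
  rw [kd_apply, kd_apply, map_sum]
  refine Finset.sum_congr rfl fun i _ => ?_
  rw [map_zsmul, hx i j]

end

theorem t_inb : INBStmt := by
  classical
  intro K M _ _ _ x G J j p s hx hG hjJ hV c hc hc0 ⟨b', hb', hb'c⟩
  set c2 : Finset ℕ → M := fun T => if T ⊆ J then sg j T • c (insert j T) else 0 with hc2
  have hnj : ∀ T : Finset ℕ, T ⊆ J → j ∉ T := fun T hT h => hjJ (hT h)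
  have hkc2 : ∀ T ⊆ J, kd x c2 T = x j (c T) := by
    intro T hT
    have h1 := kd_ins x c c2 j T (hnj T hT) (fun i _ => by
      simp only [hc2]
      rw [if_pos ((Finset.erase_subset _ _).trans hT)])
    rw [hc0 _ (Finset.insert_subset_insert _ hT), smul_zero] at h1
    exact (sub_eq_zero.1 h1.symm).symm
  set d : Finset ℕ → M := fun T => c2 T - x j (b' T) with hd
  have hdm : d ∈ Cc J (p - 1) (G s) := by
    intro T
    refine ⟨?_, fun h => ?_⟩
    · refine Submodule.sub_mem _ ?_ ?_
      · simp only [hc2]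
        split_ifs with h
        · exact zsmul_mem (hc _).1 _
        · exact zero_mem _
      · have := hG j (s - 1) _ (hb' T).1
        rwa [sub_add_cancel] at this
    · simp only [hd, (hb' T).2 h, map_zero, sub_zero, hc2]
      split_ifs with hT
      · rw [(hc (insert j T)).2, smul_zero]
        rintro ⟨_, h2⟩
        rw [Finset.card_insert_of_notMem (hnj T hT)] at h2
        push_cast at h2
        exact h ⟨hT, by omega⟩
      · rfl
  have hd0 : ∀ T ⊆ J, kd x d T = 0 := by
    intro T hT
    have h1 : d = c2 - fun T => x j (b' T) := rfl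
    rw [h1, map_sub, Pi.sub_apply, hkc2 T hT, kd_comm x hx, hb'c T hT, sub_self]
  obtain ⟨b0, hb0, hb0d⟩ := hV d hdm hd0
  set b : Finset ℕ → M := fun T =>
    if j ∈ T then -(sg j (T.erase j) • b0 (T.erase j)) else b' T with hb
  have hb_in : ∀ T, j ∉ T → b (insert j T) = -(sg j T • b0 T) := by
    intro T hT
    simp only [hb, if_pos (Finset.mem_insert_self j T), Finset.erase_insert hT]
  have hb_out : ∀ T, j ∉ T → b T = b' T := fun T hT => by simp only [hb, if_neg hT]
  refine ⟨b, ?_, ?_⟩
  · intro T
    by_cases hjT : j ∈ T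
    · refine ⟨?_, fun h => ?_⟩
      · simp only [hb, if_pos hjT]
        exact Submodule.neg_mem _ (zsmul_mem (hb0 _).1 _)
      · simp only [hb, if_pos hjT]
        rw [(hb0 (T.erase j)).2, smul_zero, neg_zero]
        rintro ⟨h1, h2⟩
        have hT : T ⊆ insert j J := by
          intro i hi
          by_cases hij : i = j
          · rw [hij]; exact Finset.mem_insert_self _ _
          · exact Finset.mem_insert_of_mem (h1 (Finset.mem_erase.2 ⟨hij, hi⟩))
        have h3 := Finset.card_erase_add_one hjT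
        refine h ⟨hT, ?_⟩
        have h4 : ((T.erase j).card : ℤ) + 1 = T.card := by exact_mod_cast h3
        omega
    · rw [hb_out T hjT]
      refine ⟨(hb' T).1, fun h => (hb' T).2 fun h' => h ⟨h'.1.trans (Finset.subset_insert _ _),
        h'.2⟩⟩
  · intro T hT
    by_cases hjT : j ∈ T
    · obtain ⟨T0, hT0, rfl⟩ : ∃ T0 : Finset ℕ, j ∉ T0 ∧ T = insert j T0 :=
        ⟨T.erase j, Finset.notMem_erase _ _, (Finset.insert_erase hjT).symm⟩
      have hT0J : T0 ⊆ J := by
        intro i hi
        rcases Finset.mem_insert.1 (hT (Finset.mem_insert_of_mem hi)) with h | h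
        · exact absurd (h ▸ hi) hT0
        · exact h
      have h1 := kd_ins x b (fun T => - b0 T) j T0 hT0 (fun i _ => by
        rw [hb_in _ (fun h => hT0 (Finset.mem_of_mem_erase h)), smul_neg, smul_smul, sg_sq,
          one_smul])
      have h2 : kd x (fun T => - b0 T) T0 = - kd x b0 T0 := by
        have : (fun T => - b0 T) = - b0 := rfl
        rw [this, map_neg, Pi.neg_apply]
      rw [h2, hb0d T0 hT0J, hb_out T0 hT0] at h1
      have h3 : x j (b' T0) - -d T0 = sg j T0 • c (insert j T0) := by
        simp only [hd, hc2, if_pos hT0J]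
        abel
      rw [h3] at h1
      have h4 := congrArg (fun z => sg j T0 • z) h1
      simp only [smul_smul, sg_sq, one_smul] at h4
      exact h4
    · have hTJ : T ⊆ J := fun i hi => by
        rcases Finset.mem_insert.1 (hT hi) with h | h
        · exact absurd (h ▸ hi) hjT
        · exact h
      rw [kd_congr x b b' T (fun i _ => hb_out _ (fun h => hjT (Finset.mem_of_mem_erase h))),
        hb'c T hTJ]

theorem t_ins (hINB : INBStmt) : INSStmt := by
  classical
  intro K M _ _ _ x G J j p s hx hG hjJ hV hV' c hc hc0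
  refine hINB K M x G J j p s hx hG hjJ hV' c hc hc0 ?_
  set c' : Finset ℕ → M := fun T => if T ⊆ J then c T else 0 with hc'
  have h1 : c' ∈ Cc J p (G s) := by
    intro T
    simp only [hc']
    split_ifs with h
    · refine ⟨(hc T).1, fun h' => (hc T).2 fun h'' => h' ⟨h, h''.2⟩⟩
    · exact ⟨zero_mem _, fun _ => rfl⟩
  have h2 : ∀ T ⊆ J, kd x c' T = 0 := by
    intro T hT
    rw [kd_congr x c' c T (fun i _ => by
      simp only [hc']
      rw [if_pos ((Finset.erase_subset _ _).trans hT)])]
    exact hc0 T (hT.trans (Finset.subset_insert _ _))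
  obtain ⟨b, hb, hbc⟩ := hV c' h1 h2
  refine ⟨b, hb, fun T hT => ?_⟩
  rw [hbc T hT]
  simp only [hc']
  rw [if_pos hT]

end Pool.KZ
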