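import Pool.Agent.H85.KZ.SE

/-!
# KZ: the vanishing theorem
-/

set_option autoImplicit false

namespace Pool.KZ

open MvPolynomial

section Aux86

variable {K M : Type} [Field K] [AddCommGroup M] [Module K M]

/-- Cocycles. -/
def Zc (x : ℕ → M →ₗ[K] M) (G : Submodule K M) (J : Finset ℕ) (p : ℤ) :
    Submodule K (Finset ℕ → M) where
  carrier := {c | c ∈ Cc J p G ∧ ∀ T ⊆ J, kd x c T = 0}
  add_mem' := fun ha hb => ⟨add_mem ha.1 hb.1, fun T hT => by
    rw [map_add, Pi.add_apply, ha.2 T hT, hb.2 T hT, add_zero]⟩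
  zero_mem' := ⟨zero_mem _, fun T _ => by rw [map_zero]; rfl⟩
  smul_mem' := fun r _ hc => ⟨Submodule.smul_mem _ r hc.1, fun T hT => by
    rw [map_smul, Pi.smul_apply, hc.2 T hT, smul_zero]⟩

/-- Coboundaries. -/
def Bc (x : ℕ → M →ₗ[K] M) (G₀ G : Submodule K M) (J : Finset ℕ) (p : ℤ) :
    Submodule K (Finset ℕ → M) where
  carrier := {c | c ∈ Cc J p G ∧ ∃ b ∈ Cc J (p - 1) G₀, ∀ T ⊆ J, kd x b T = c T}
  add_mem' := by
    rintro c c' ⟨h, b, hb, hb'⟩ ⟨h2, b2, hb2, hb2'⟩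
    exact ⟨add_mem h h2, b + b2, add_mem hb hb2, fun T hT => by
      rw [map_add, Pi.add_apply, hb' T hT, hb2' T hT]; rfl⟩
  zero_mem' := ⟨zero_mem _, 0, zero_mem _, fun T _ => by rw [map_zero]⟩
  smul_mem' := by
    rintro r c ⟨h, b, hb, hb'⟩
    exact ⟨Submodule.smul_mem _ r h, r • b, Submodule.smul_mem _ r hb, fun T hT => by
      rw [map_smul, Pi.smul_apply, hb' T hT]; rfl⟩

theorem ct_sum86 {n : ℕ} (b : Fin n → K) (g : EE K M n) :
    ct (∑ i, b i • X i) g = ∑ i, b i • ct (X i) g := by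
  apply LinearMap.ext
  intro h
  rw [LinearMap.sum_apply]
  have : ct (∑ i, b i • X i) g h = g ((∑ i, b i • X i) * h) := rfl
  rw [this, Finset.sum_mul, map_sum]
  refine Finset.sum_congr rfl fun i _ => ?_
  rw [smul_mul_assoc, map_smul]
  rfl

theorem wlin86 {n : ℕ} (b : Fin n → K) :
    (∑ i, b i • X i : MvPolynomial (Fin n) K) ∈ homogeneousSubmodule (Fin n) K 1 :=
  Submodule.sum_mem _ fun i _ => Submodule.smul_mem _ _ (isHomogeneous_X K i)

end Aux86

theorem t_van (hKDD : KDDStmt) (hSEI : SEIStmt) (hSES : SESStmt) (hEIG : EIGStmt)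
    (hXEB : XEBStmt) (hEXA : EXAStmt) (hFIE : FIEStmt) (hONE : ONEStmt) : VANStmt := by
  intro K M _ _ _ _ G L _ _ θ cnd hfin hθ hcm hq hs hv k
  induction k with
  | zero =>
    intro l J c hc q s ν hcnd hν
    have h1 : Vn (fun j => θ (l j 0)) G J ((c : ℤ) - q) s := by
      refine hv (fun j => l j 0) J c ?_ q s (by simpa using hcnd)
      have h0 := hc (fun _ => 1) (by intro h; have := congrFun h 0; simp at this)
      have e : (fun j => ∑ i : Fin (0 + 1), (1 : K) • l j i) = (fun j => l j 0) := by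
        funext j
        rw [Fin.sum_univ_succ, Finset.univ_eq_empty, Finset.sum_empty, add_zero, one_smul]
      rw [e] at h0
      exact h0
    have h2 := hONE K M G (fun j i => θ (l j i)) J ((c : ℤ) - q) s ν hν h1
    simpa using h2
  | succ k ih =>
    intro l J c hc q s ν hcnd hν
    have hy1 : ∀ j i s, ∀ m ∈ G s, θ (l j i) m ∈ G (s + 1) := fun j i s m hm => hθ _ s m hm
    have hy2 : ∀ j i j' i' m, θ (l j i) (θ (l j' i') m) = θ (l j' i') (θ (l j i) m) :=
      fun j i j' i' m => hcm _ _ m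
    obtain ⟨hCm, hDg, hct, hctG⟩ := hXEB K M G (k + 2) (fun j i => θ (l j i)) hy1 hy2
    set x := xe (k := k + 2) (fun j i => θ (l j i)) with hx
    -- the induction hypothesis
    have hIH : ∀ (B : Fin (k + 1) → Fin (k + 2) → K),
        (∀ a : Fin (k + 1) → K, (∀ i, ∑ i', a i' * B i' i = 0) → a = 0) →
        ∀ (q' : ℕ) (s' ν' : ℤ), cnd q' (s' + k) → s' + 1 ≤ ν' →
        Vn (xe (fun j i' => ∑ i, B i' i • θ (l j i))) (Ez G ν') J ((c : ℤ) - k - q') s' := by
      intro B hB q' s' ν' h1 h2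
      have h3 := ih (fun j i' => ∑ i, B i' i • l j i) J c ?_ q' s' ν' h1 h2
      · have e : (fun j i' => θ (∑ i, B i' i • l j i))
            = (fun j i' => ∑ i, B i' i • θ (l j i)) := by
          funext j i'
          rw [map_sum]
          exact Finset.sum_congr rfl fun i _ => by rw [map_smul]
        rw [e] at h3
        exact h3
      · intro a ha
        have h4 := hc (fun i => ∑ i', a i' * B i' i) (fun h => ha (hB a (fun i => congrFun h i)))
        have e : (fun j => ∑ i', a i' • ∑ i, B i' i • l j i)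
            = (fun j => ∑ i, (∑ i', a i' * B i' i) • l j i) := by
          funext j
          simp only [Finset.smul_sum, smul_smul, Finset.sum_smul]
          rw [Finset.sum_comm]
        rw [e]
        exact h4
    have hp1 : (c : ℤ) - k - ((q + 1 : ℕ) : ℤ) = (c : ℤ) - ((k + 1 : ℕ) : ℤ) - q := by
      push_cast; ring
    have hp2 : (c : ℤ) - k - (q : ℤ) = (c : ℤ) - ((k + 1 : ℕ) : ℤ) - q + 1 := by
      push_cast; ring
    set p : ℤ := (c : ℤ) - ((k + 1 : ℕ) : ℤ) - q with hp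
    have hcnd1 : cnd q (s + 1 + k) := by
      have : s + 1 + (k : ℤ) = s + ((k + 1 : ℕ) : ℤ) := by push_cast; ring
      rw [this]; exact hcnd
    have hcnd2 : cnd (q + 1) (s + k) := hq _ _ (hs _ _ _ hcnd1 (by linarith))
    -- injectivity
    have hinj : ∀ ν' : ℤ, s + 1 ≤ ν' → ∀ b : Fin (k + 2) → K, b ≠ 0 →
        ∀ z ∈ Zc x (Ez G ν' s) J p, (fun T => ct (∑ i, b i • X i) (z T)) ∈
          Bc x (Ez G (ν' - 1) (s - 1)) (Ez G (ν' - 1) s) J p →
        z ∈ Bc x (Ez G ν' (s - 1)) (Ez G ν' s) J p := by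
      intro ν' hν' b hb z hz hzb
      obtain ⟨B, ι, hB, hSE⟩ := hEXA K M G (k + 1) (fun j i => θ (l j i)) hy1 hy2 b hb
      have h1 := hIH B hB (q + 1) s ν' hcnd2 hν'
      rw [hp1] at h1
      obtain ⟨b2, hb2, hb2'⟩ := hzb.2
      exact ⟨hz.1, hSEI K _ _ _ _ _ _ _ _ _ ι _ (hSE ν') J p s h1 z hz.1 hz.2 ⟨b2, hb2, hb2'⟩⟩
    -- surjectivity
    have hsur : ∀ ν' : ℤ, s + 2 ≤ ν' → ∀ b : Fin (k + 2) → K, b ≠ 0 →
        ∀ z' ∈ Zc x (Ez G (ν' - 1) s) J p, ∃ z ∈ Zc x (Ez G ν' s) J p,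
          ∀ T, ct (∑ i, b i • X i) (z T) = z' T := by
      intro ν' hν' b hb z' hz'
      obtain ⟨B, ι, hB, hSE⟩ := hEXA K M G (k + 1) (fun j i => θ (l j i)) hy1 hy2 b hb
      have h1 := hIH B hB q (s + 1) ν' hcnd1 (by linarith)
      rw [hp2] at h1
      obtain ⟨z, hz, hz1, hz2⟩ :=
        hSES K _ _ _ _ _ _ _ _ _ ι _ (hSE ν') J p s h1 z' hz'.1 hz'.2
      exact ⟨z, ⟨hz, hz1⟩, hz2⟩
    -- contraction
    have hcZ : ∀ ν' : ℤ, ∀ b : Fin (k + 2) → K, ∀ z ∈ Zc x (Ez G ν' s) J p,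
        (fun T => ct (∑ i, b i • X i) (z T)) ∈ Zc x (Ez G (ν' - 1) s) J p := by
      intro ν' b z hz
      refine ⟨Cc_map85 (hctG _ (wlin86 b) ν' s) hz.1, fun T hT => ?_⟩
      rw [← map_kd85 x x (ct (∑ i, b i • X i)) (fun j g => hct _ j g) z T, hz.2 T hT, map_zero]
    have hcB : ∀ ν' : ℤ, ∀ b : Fin (k + 2) → K,
        ∀ z ∈ Bc x (Ez G ν' (s - 1)) (Ez G ν' s) J p,
        (fun T => ct (∑ i, b i • X i) (z T)) ∈
          Bc x (Ez G (ν' - 1) (s - 1)) (Ez G (ν' - 1) s) J p := by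
      rintro ν' b z ⟨hz, b2, hb2, hb2'⟩
      refine ⟨Cc_map85 (hctG _ (wlin86 b) ν' s) hz, fun T => ct (∑ i, b i • X i) (b2 T),
        Cc_map85 (hctG _ (wlin86 b) ν' (s - 1)) hb2, fun T hT => ?_⟩
      rw [← map_kd85 x x (ct (∑ i, b i • X i)) (fun j g => hct _ j g) b2 T, hb2' T hT]
    have hBZ : ∀ ν' : ℤ, Bc x (Ez G ν' (s - 1)) (Ez G ν' s) J p ≤ Zc x (Ez G ν' s) J p := by
      rintro ν' z ⟨hz, b2, hb2, hb2'⟩
      refine ⟨hz, fun T hT => ?_⟩
      rw [← kd_congr85 x hT hb2', hKDD K _ x hCm]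
      rfl
    have e0 : ∀ z : Finset ℕ → EE K M (k + 2),
        (fun T => ct (∑ i, (Pi.single (0 : Fin (k + 2)) (1 : K) : Fin (k + 2) → K) i • X i) (z T))
          = (ct (X 0)).compLeft (Finset ℕ) z := by
      intro z
      funext T
      rw [ct_sum86, Finset.sum_eq_single (0 : Fin (k + 2))]
      · rw [Pi.single_eq_same, one_smul]; rfl
      · intro i _ hi
        rw [Pi.single_eq_of_ne hi, zero_smul]
      · intro h; exact absurd (Finset.mem_univ _) h
    have e1 : ∀ z : Finset ℕ → EE K M (k + 2),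
        (fun T => ct (∑ i, (Pi.single (1 : Fin (k + 2)) (1 : K) : Fin (k + 2) → K) i • X i) (z T))
          = (ct (X 1)).compLeft (Finset ℕ) z := by
      intro z
      funext T
      rw [ct_sum86, Finset.sum_eq_single (1 : Fin (k + 2))]
      · rw [Pi.single_eq_same, one_smul]; rfl
      · intro i _ hi
        rw [Pi.single_eq_of_ne hi, zero_smul]
      · intro h; exact absurd (Finset.mem_univ _) h
    have e2 : ∀ (t : K) (z : Finset ℕ → EE K M (k + 2)),
        (fun T => ct (∑ i, ((Pi.single (1 : Fin (k + 2)) (1 : K) : Fin (k + 2) → K)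
          - t • (Pi.single (0 : Fin (k + 2)) (1 : K) : Fin (k + 2) → K)) i • X i) (z T))
          = (ct (X 1)).compLeft (Finset ℕ) z - t • (ct (X 0)).compLeft (Finset ℕ) z := by
      intro t z
      rw [← e0, ← e1]
      funext T
      rw [Pi.sub_apply, Pi.smul_apply, ct_sum86, ct_sum86, ct_sum86, Finset.smul_sum,
        ← Finset.sum_sub_distrib]
      refine Finset.sum_congr rfl fun i _ => ?_
      rw [Pi.sub_apply, Pi.smul_apply, sub_smul, smul_eq_mul, mul_smul]
    have h01 : (1 : Fin (k + 2)) ≠ 0 := by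
      intro h
      have := congrArg Fin.val h
      simp at this
    have b0 : (Pi.single (0 : Fin (k + 2)) (1 : K) : Fin (k + 2) → K) ≠ 0 := by
      intro h
      have := congrFun h 0
      rw [Pi.single_eq_same] at this
      exact one_ne_zero this
    have b2 : ∀ t : K, ((Pi.single (1 : Fin (k + 2)) (1 : K) : Fin (k + 2) → K)
          - t • (Pi.single (0 : Fin (k + 2)) (1 : K) : Fin (k + 2) → K)) ≠ 0 := by
      intro t h
      have := congrFun h 1
      rw [Pi.sub_apply, Pi.smul_apply, Pi.single_eq_same, Pi.single_eq_of_ne h01, smul_zero,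
        sub_zero] at this
      exact one_ne_zero this
    -- the main case
    have hmain : ∀ ν' : ℤ, s + 2 ≤ ν' →
        Zc x (Ez G ν' s) J p ≤ Bc x (Ez G ν' (s - 1)) (Ez G ν' s) J p := by
      intro ν' hν'
      have hfZ : Module.Finite K (Zc x (Ez G ν' s) J p) := by
        have h1 := hFIE K M (G s) (k + 2) (ν' - s) (hfin s) J p
        have h2 : Zc x (Ez G ν' s) J p ≤ Cc J p (Eg (k := k + 2) (G s) (ν' - s)) :=
          fun z hz => hz.1
        exact Module.Finite.of_injective (Submodule.inclusion h2) (Submodule.inclusion_injective h2)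
      refine hEIG K _ _ (Zc x (Ez G ν' s) J p) (Bc x (Ez G ν' (s - 1)) (Ez G ν' s) J p)
        (Zc x (Ez G (ν' - 1) s) J p) (Bc x (Ez G (ν' - 1) (s - 1)) (Ez G (ν' - 1) s) J p)
        ((ct (X 0)).compLeft (Finset ℕ)) ((ct (X 1)).compLeft (Finset ℕ)) hfZ (hBZ ν')
        ?_ ?_ ?_ ?_ (hBZ (ν' - 1)) ?_ ?_ ?_
      · intro z hz; rw [← e0]; exact hcZ ν' _ z hz
      · intro z hz; rw [← e1]; exact hcZ ν' _ z hz
      · intro z hz; rw [← e0]; exact hcB ν' _ z hz
      · intro z hz; rw [← e1]; exact hcB ν' _ z hz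
      · intro z' hz'
        obtain ⟨z, hz, hz2⟩ := hsur ν' hν' _ b0 z' hz'
        refine ⟨z, hz, ?_⟩
        rw [← e0]
        have : (fun T => ct (∑ i, (Pi.single (0 : Fin (k + 2)) (1 : K) : Fin (k + 2) → K) i • X i)
          (z T)) = z' := funext hz2
        rw [this, sub_self]
        exact zero_mem _
      · intro z hz hz2
        rw [← e0] at hz2
        exact hinj ν' (by linarith) _ b0 z hz hz2
      · intro t z hz hz2
        rw [← e2] at hz2
        exact hinj ν' (by linarith) _ (b2 t) z hz hz2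
    -- conclusion
    intro z hz hz0
    rcases eq_or_lt_of_le hν with h | h
    · obtain ⟨z2, hz2, hz3⟩ := hsur (ν + 1) (by linarith) _ b0 z
        (by rw [add_sub_cancel_right]; exact ⟨hz, hz0⟩)
      have h4 := hcB (ν + 1) (Pi.single (0 : Fin (k + 2)) (1 : K)) z2
        (hmain (ν + 1) (by linarith) hz2)
      rw [funext hz3, add_sub_cancel_right] at h4
      exact h4.2
    · exact (hmain ν (by linarith [Int.add_one_le_iff.2 h]) ⟨hz, hz0⟩).2

end Pool.KZ
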