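import Pool.Agent.H86.KZ.KDD
import Pool.Agent.H86.KZ.INB
import Pool.Agent.H86.KZ.VAN
import Pool.Agent.H43.KZ.QUO
import Pool.Agent.H85.KZ.SE
import Pool.Agent.H8.KZ.EIG
import Pool.Agent.H8.KZ.FIE
import Pool.Agent.H8.KZ.ONE
import Pool.Agent.H53.KZ.XEB
import Pool.Agent.H20.KZ.EXA
import Pool.Agent.H94.KZ.GZM
import Pool.Agent.H94.KZ.REG
import Pool.Agent.H20.KZ.HVI
import Pool.Agent.H20.KZ.HYP
import Pool.Agent.H61.KZ.GRO
import Pool.Agent.H45.KZ.FIN

/-!
# KZ: the growth of few forms, assembled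
-/

set_option autoImplicit false

namespace Pool.KZ

/-- The vanishing theorem for linear forms with parameters. -/
theorem van_all : VANStmt :=
  t_van t_kdd (t_SEI t_kdd) (t_SES t_kdd) t_eig t_xeb (t_exa t_xeb) t_fie t_one

/-- Linear forms modulo a regular sequence. -/
theorem hva_all : HVAStmt :=
  t_hva (t_hvi (t_quo t_kdd) (t_reg t_inb (t_ins t_inb)) t_gzm) (t_ins t_inb) t_gzm

/-- The growth of a space of forms. -/
theorem gro_all : GROStmt := t_gro (t_hyp van_all hva_all t_gzm)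

/-- The growth of homogeneous ideals. -/
theorem fin_all : FINStmt' := t_fin gro_all

end Pool.KZ
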