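import Pool.Agent.H86.KZ.S
import Pool.Agent.H45.EG4.LEXG
import Pool.Agent.H45.EG4.All

/-!
# KZ: the lex-plus-powers ideals with few forms
-/

set_option autoImplicit false

namespace Pool.KZ

open MvPolynomial Pool.EGH
open Pool.EG3 (Cp Mo up Sg Rz MC t_mom t_sge t_sup)
open Pool.EG3.LEX86 (hfm hf_inj)
open Pool.EG4 (Ag CLg dl ca so vioG vioG_up lex_supG lexG t_rzcg clt_all)
open Pool.EGC (t_mni)

/-- The base vector. -/
def be (a : ℕ → ℕ) (j c : ℕ) (u : ℕ) : ℕ := if u < j then a u - 1 else if u = j then c - 1 else 0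

/-- The unit vector. -/
def un (v : ℕ) (u : ℕ) : ℕ := if u = v then 1 else 0

/-- The vectors of the first block. -/
def Mb (a : ℕ → ℕ) (j c i : ℕ) (n : ℕ) : Fin n → ℕ := fun u => be a j c u + un (j + i) u

theorem sum_un {n v : ℕ} (hv : v < n) : ∑ u : Fin n, un v u = 1 := by
  unfold un
  rw [Finset.sum_eq_single (⟨v, hv⟩ : Fin n)]
  · simp
  · intro b _ hb
    rw [if_neg]
    intro h
    exact hb (Fin.ext h)
  · intro h; exact absurd (Finset.mem_univ _) h

theorem sum_be {a : ℕ → ℕ} {n j c : ℕ} (hj : j < n) :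
    ∑ u : Fin n, be a j c u = so a j + (c - 1) := by
  rw [Fin.sum_univ_eq_sum_range (be a j c) n]
  obtain ⟨e, rfl⟩ : ∃ e, n = j + 1 + e := ⟨n - (j + 1), by omega⟩
  rw [Finset.sum_range_add, Finset.sum_range_succ]
  have h1 : ∑ x ∈ Finset.range j, be a j c x = so a j := by
    unfold so
    refine Finset.sum_congr rfl fun x hx => ?_
    unfold be
    rw [if_pos (Finset.mem_range.1 hx)]
  have h2 : be a j c j = c - 1 := by
    unfold be
    rw [if_neg (lt_irrefl _), if_pos rfl]
  have h3 : ∑ x ∈ Finset.range e, be a j c (j + 1 + x) = 0 := by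
    refine Finset.sum_eq_zero fun x _ => ?_
    unfold be
    rw [if_neg (by omega), if_neg (by omega)]
  rw [h1, h2, h3, add_zero]

theorem sum_Mb {a : ℕ → ℕ} {n j c i : ℕ} (hj : j + i < n) (hc : 1 ≤ c) :
    ∑ u, Mb a j c i n u = so a j + c := by
  unfold Mb
  rw [Finset.sum_add_distrib, sum_un hj, sum_be (by omega)]
  omega

/-- The conditions of the first block. -/
structure Bk (a : ℕ → ℕ) (n r j c k : ℕ) : Prop where
  mono : Monotone a
  two : 2 ≤ a 0
  rn : r ≤ n
  jr : j ≤ r
  jk : j + k ≤ n
  c1 : 1 ≤ c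
  cap : j = r ∨ c + k ≤ a j - 1

variable {a : ℕ → ℕ} {n r j c k : ℕ}

theorem Bk.a2 (h : Bk a n r j c k) (i : ℕ) : 2 ≤ a i := h.two.trans (h.mono (Nat.zero_le i))

theorem Mb_cp (h : Bk a n r j c k) {i : ℕ} (hi : i < k) : Cp (ca a r n) (Mb a j c i n) := by
  intro u
  unfold ca
  by_cases hu : (u : ℕ) < r
  · rw [if_pos hu]
    have h2 := h.a2 (u : ℕ)
    have key : Mb a j c i n u < a u := by
      unfold Mb be un
      by_cases h1 : (u : ℕ) < j
      · rw [if_pos h1, if_neg (by omega)]
        omega
      · rw [if_neg h1]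
        by_cases h3 : (u : ℕ) = j
        · rw [if_pos h3]
          rcases h.cap with h4 | h4
          · omega
          · rw [h3]
            have := h.c1
            split_ifs <;> omega
        · rw [if_neg h3]
          split_ifs <;> omega
    exact_mod_cast key
  · rw [if_neg hu]
    exact ENat.natCast_lt_top _

theorem Mb_mo (h : Bk a n r j c k) {i : ℕ} (hi : i < k) :
    Mb a j c i n ∈ Mo (ca a r n) (so a j + c) := by
  rw [(t_mom n _ _ _).1]
  exact ⟨sum_Mb (by have := h.jk; omega) h.c1, Mb_cp h hi⟩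

theorem Mb_inj {i i' : ℕ} (hi : j + i < n) (hi' : j + i' < n)
    (h : Mb a j c i n = Mb a j c i' n) : i = i' := by
  have h1 := congrFun h ⟨j + i, hi⟩
  unfold Mb un at h1
  simp only [if_true] at h1
  by_contra hne
  rw [if_neg (by omega)] at h1
  omega

open Classical in
/-- The family of the first block. -/
noncomputable def A0 (a : ℕ → ℕ) (j c k n : ℕ) : Finset (Fin n → ℕ) :=
  (Finset.range k).image fun i => Mb a j c i n

theorem A0_card (h : Bk a n r j c k) : (A0 a j c k n).card = k := by
  classical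
  unfold A0
  rw [Finset.card_image_of_injOn, Finset.card_range]
  intro i hi i' hi' he
  rw [Finset.coe_range, Set.mem_Iio] at hi hi'
  have := h.jk
  exact Mb_inj (by omega) (by omega) he

open Classical in
/-- The multiples. -/
noncomputable def Td (a : ℕ → ℕ) (r j c k n d : ℕ) : Finset (Fin n → ℕ) :=
  (Mo (ca a r n) d).filter fun y => ∃ x ∈ A0 a j c k n, x ≤ y

theorem Td_m (h : Bk a n r j c k) : Td a r j c k n (so a j + c) = A0 a j c k n := by
  classical
  ext y
  unfold Td
  rw [Finset.mem_filter]
  constructor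
  · rintro ⟨h1, x, hx, hxy⟩
    have h2 : x = y := by
      unfold A0 at hx
      rw [Finset.mem_image] at hx
      obtain ⟨i, hi, rfl⟩ := hx
      rw [Finset.mem_range] at hi
      have h3 := ((t_mom n _ _ _).1.1 (Mb_mo h hi)).1
      have h4 := ((t_mom n _ _ _).1.1 h1).1
      have h5 := (Finset.sum_eq_sum_iff_of_le (fun u _ => hxy u)).1 (h3.trans h4.symm)
      funext u
      exact h5 u (Finset.mem_univ u)
    rw [← h2]; exact hx
  · intro hy
    refine ⟨?_, y, hy, le_rfl⟩
    unfold A0 at hy
    rw [Finset.mem_image] at hy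
    obtain ⟨i, hi, rfl⟩ := hy
    exact Mb_mo h (Finset.mem_range.1 hi)

/-- One step up. -/
theorem step_up {x y : Fin n → ℕ} {d : ℕ} (hxy : x ≤ y) (hx : ∑ u, x u = d)
    (hy : ∑ u, y u = d + 1) : ∃ t : Fin n, y = fun u => x u + un t u := by
  classical
  have hne : ∃ t, x t < y t := by
    by_contra hcon
    push Not at hcon
    have : ∑ u, y u ≤ ∑ u, x u := Finset.sum_le_sum fun u _ => hcon u
    omega
  obtain ⟨t, ht⟩ := hne
  refine ⟨t, ?_⟩
  have h1 : ∀ u ∈ Finset.univ, (fun u : Fin n => x u + un t u) u ≤ y u := by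
    intro u _
    simp only
    unfold un
    split_ifs with h
    · have : u = t := Fin.ext h
      rw [this]; omega
    · rw [add_zero]; exact hxy u
  have h2 : ∑ u, (fun u : Fin n => x u + un t u) u = ∑ u, y u := by
    simp only
    rw [Finset.sum_add_distrib, sum_un t.isLt, hx, hy]
  have h3 := (Finset.sum_eq_sum_iff_of_le h1).1 h2
  funext u
  exact (h3 u (Finset.mem_univ u)).symm

theorem Td_up (h : Bk a n r j c k) :
    (Td a r j c k n (so a j + c + 1)).card ≤ ∑ i ∈ Finset.range k, (n - (j + i)) := by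
  classical
  have hsub : Td a r j c k n (so a j + c + 1) ⊆
      ((Finset.range k).sigma fun i => Finset.Ico (j + i) n).image
        (fun q => (fun u : Fin n => be a j c u + un (j + q.1) u + un q.2 u)) := by
    intro y hy
    unfold Td at hy
    rw [Finset.mem_filter] at hy
    obtain ⟨h1, x, hx, hxy⟩ := hy
    unfold A0 at hx
    rw [Finset.mem_image] at hx
    obtain ⟨i, hi, rfl⟩ := hx
    rw [Finset.mem_range] at hi
    have hjk := h.jk
    have h3 := ((t_mom n _ _ _).1.1 (Mb_mo h hi)).1
    obtain ⟨h4, h5⟩ := (t_mom n _ _ _).1.1 h1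
    obtain ⟨t, rfl⟩ := step_up hxy h3 h4
    have htj : j ≤ (t : ℕ) := by
      by_contra hcon
      have hcon' : (t : ℕ) < j := not_le.1 hcon
      have h6 := h5 t
      have hjr := h.jr
      unfold ca at h6
      rw [if_pos (by omega)] at h6
      have h7 : Mb a j c i n t + un t t < a t := by exact_mod_cast h6
      unfold Mb be un at h7
      rw [if_pos hcon', if_pos rfl] at h7
      have := h.a2 (t : ℕ)
      omega
    rw [Finset.mem_image]
    by_cases hti : j + i ≤ (t : ℕ)
    · refine ⟨⟨i, (t : ℕ)⟩, ?_, rfl⟩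
      rw [Finset.mem_sigma]
      exact ⟨Finset.mem_range.2 hi, Finset.mem_Ico.2 ⟨hti, t.isLt⟩⟩
    · refine ⟨⟨(t : ℕ) - j, j + i⟩, ?_, ?_⟩
      · rw [Finset.mem_sigma]
        exact ⟨Finset.mem_range.2 (by simp only; omega), Finset.mem_Ico.2 ⟨by simp only; omega, by simp only; omega⟩⟩
      · funext u
        simp only
        unfold Mb
        have : j + ((t : ℕ) - j) = t := by omega
        rw [this]
        ring
  refine (Finset.card_le_card hsub).trans (Finset.card_image_le.trans ?_)
  rw [Finset.card_sigma]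
  refine Finset.sum_le_sum fun i _ => ?_
  rw [Nat.card_Ico]

/-- The ideal. -/
theorem few_lex {K : Type} [Field K] (h : Bk a n r j c k) (h3 : 3 ≤ n) (I : Ideal (PR K n))
    (h1 : hf I (so a j + c) + k = (Mo (ca a r n) (so a j + c)).card)
    (h2 : hf I (so a j + c + 1) + ∑ i ∈ Finset.range k, (n - (j + i)) ≤
      (Mo (ca a r n) (so a j + c + 1)).card) :
    ∃ J : Ideal (MvPolynomial (Fin n) K),
      (∀ p ∈ J, ∀ s ∈ p.support, MvPolynomial.monomial s (1 : K) ∈ J) ∧
      (∀ s t : Fin n →₀ ℕ, s.degree = t.degree →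
          MvPolynomial.monomial s (1 : K) ∈ J →
          (MonomialOrder.lex : MonomialOrder (Fin n)).toSyn s ≤
            (MonomialOrder.lex : MonomialOrder (Fin n)).toSyn t →
          MvPolynomial.monomial t (1 : K) ∈ J) ∧
      Module.finrank K
          ↥(MvPolynomial.homogeneousSubmodule (Fin n) K (so a j + c) ⊓
              Submodule.restrictScalars K
                (Ideal.span (Set.range fun i : Fin r => MvPolynomial.X (Fin.castLE h.rn i) ^ a i)
                  ⊔ J)) =
        Module.finrank K
          ↥(MvPolynomial.homogeneousSubmodule (Fin n) K (so a j + c) ⊓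
            Submodule.restrictScalars K I) ∧
      Module.finrank K
          ↥(MvPolynomial.homogeneousSubmodule (Fin n) K (so a j + c + 1) ⊓
              Submodule.restrictScalars K
                (Ideal.span (Set.range fun i : Fin r => MvPolynomial.X (Fin.castLE h.rn i) ^ a i)
                  ⊔ J)) ≤
        Module.finrank K
          ↥(MvPolynomial.homogeneousSubmodule (Fin n) K (so a j + c + 1) ⊓
            Submodule.restrictScalars K I) := by
  classical
  set cc := ca a r n with hcc
  set S : Set (Fin n →₀ ℕ) := vioG a r n ∪ {s | ∃ x ∈ A0 a j c k n, x ≤ fun i => s i} with hS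
  have hup : ∀ s ∈ S, ∀ t, s ≤ t → t ∈ S := by
    rintro s (hs | ⟨x, hx, hxs⟩) t hst
    · exact Or.inl (vioG_up hs hst)
    · exact Or.inr ⟨x, hx, fun u => (hxs u).trans (hst u)⟩
  set P : Ideal (PR K n) := Ideal.span ((fun s => monomial s (1 : K)) '' S) with hP
  have hPd : ∀ d, hf P d + (Td a r j c k n d).card = (Mo cc d).card := by
    intro d
    refine hfm t_mni cc d S hup (Td a r j c k n d) (Finset.filter_subset _ _) ?_
    intro s hs
    constructor
    · rintro (h4 | ⟨x, hx, hxs⟩)
      · exact Or.inl h4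
      · by_cases h5 : Cp cc (fun i => s i)
        · right
          unfold Td
          rw [Finset.mem_filter, (t_mom n _ _ _).1]
          refine ⟨⟨?_, h5⟩, x, hx, hxs⟩
          rw [← hs, Finsupp.degree_eq_sum]
        · exact Or.inl h5
    · rintro (h4 | h4)
      · exact Or.inl h4
      · unfold Td at h4
        rw [Finset.mem_filter] at h4
        exact Or.inr h4.2
  have hAg : Ag cc := by
    constructor
    · intro u v huv
      have huv' : (u : ℕ) ≤ v := huv
      simp only [hcc]
      unfold ca
      split_ifs with h4 h5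
      · exact_mod_cast h.mono huv'
      · exact le_top
      · omega
      · exact le_rfl
    · intro u
      simp only [hcc]
      unfold ca
      split_ifs with h4
      · exact_mod_cast h.a2 u
      · exact le_top
  have hRz : Rz P cc := by
    refine t_rzcg clt_all t_sge t_sup K n n P cc h3 hAg
      ⟨fun d => Td a r j c k n d, fun d => Finset.filter_subset _ _, ?_, hPd⟩
    intro d y hy
    rw [(t_mom n cc d y).2] at hy
    obtain ⟨hy1, x, hx, i, rfl⟩ := hy
    unfold Td at hx ⊢
    rw [Finset.mem_filter] at hx ⊢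
    obtain ⟨hx1, z, hz, hzx⟩ := hx
    exact ⟨hy1, z, hz, hzx.trans (by intro u; simp)⟩
  obtain ⟨J, hJ1, hJ2, hJ3⟩ := lexG h.rn a P hRz
  refine ⟨J, hJ1, hJ2, ?_, ?_⟩
  · rw [← hJ3]
    refine hf_inj t_FIN _ _ _ ?_
    have h4 := hPd (so a j + c)
    rw [Td_m h, A0_card h] at h4
    omega
  · rw [← hJ3]
    have h4 := hPd (so a j + c + 1)
    have h5 := Td_up h
    have h6 : hf I (so a j + c + 1) ≤ hf P (so a j + c + 1) := by
      omega
    have h8 : ∀ I' : Ideal (PR K n), hf I' (so a j + c + 1) + Module.finrank K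
        ↥(homogeneousSubmodule (Fin n) K (so a j + c + 1) ⊓ Submodule.restrictScalars K I') =
        Module.finrank K ↥(fm K n (so a j + c + 1)) := by
      intro I'
      have := t_FIN K n (so a j + c + 1)
      have h9 : Module.finrank K
        ↥(Submodule.restrictScalars K I' ⊓ fm K n (so a j + c + 1)) ≤
        Module.finrank K ↥(fm K n (so a j + c + 1)) := Submodule.finrank_mono inf_le_right
      have h12 : Module.finrank K ↥(homogeneousSubmodule (Fin n) K (so a j + c + 1) ⊓
          Submodule.restrictScalars K I') = Module.finrank K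
        ↥(Submodule.restrictScalars K I' ⊓ fm K n (so a j + c + 1)) := by
        rw [inf_comm]
      rw [h12]
      unfold hf
      omega
    have h10 := h8 P
    have h11 := h8 I
    omega

end Pool.KZ
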