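import Pool.Agent.H86.KZ.All
import Pool.Agent.H86.KZ.LPP

/-!
# KZ: the theorem
-/

set_option autoImplicit false

namespace Pool.KZ

open MvPolynomial Pool.EGH
open Pool.EG3 (Cp Mo up Sg Rz MC MOMStmt HSMStmt t_mom t_sge t_sup moc_geo one_sub_X_ne t_rgm)
open Pool.EG3.LEX86 (hfm hf_inj)
open Pool.EG4 (Ag CLg dl ca so dl_prod ofFn_reverse)

/-- The number of capped vectors, `r` caps, `n` places. -/
theorem moc_gen (a : ℕ → ℕ) {r n : ℕ} (hr : r ≤ n) :
    PowerSeries.mk (fun d => ((Mo (ca a r n) d).card : ℤ)) * (1 - PowerSeries.X) ^ n =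
      ((dl a r).map (fun d => 1 - (PowerSeries.X : PowerSeries ℤ) ^ d)).prod := by
  classical
  set f : Fin n → PowerSeries ℤ := fun j =>
    PowerSeries.mk (fun v => if (v : ℕ∞) < ca a r n j then (1 : ℤ) else 0) with hf
  have h1 : PowerSeries.mk (fun d => ((Mo (ca a r n) d).card : ℤ)) =
      ∏ j ∈ (Finset.univ : Finset (Fin n)), f j := by
    ext d
    rw [PowerSeries.coeff_mk, PowerSeries.coeff_prod]
    have h2 : ∀ l : Fin n →₀ ℕ, ∏ j ∈ (Finset.univ : Finset (Fin n)),
        PowerSeries.coeff (l j) (f j) =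
          if ∀ j : Fin n, ((l j : ℕ) : ℕ∞) < ca a r n j then (1 : ℤ) else 0 := by
      intro l
      simp only [hf, PowerSeries.coeff_mk]
      rw [Finset.prod_ite_zero]
      simp
    simp only [h2]
    rw [Finset.sum_boole]
    congr 1
    refine Finset.card_bij (fun x _ => Finsupp.equivFunOnFinite.symm x) ?_ ?_ ?_
    · intro x hx
      obtain ⟨e1, e2⟩ := (t_mom n _ d x).1.1 hx
      rw [Finset.mem_filter, Finset.mem_finsuppAntidiag]
      refine ⟨⟨?_, Finset.subset_univ _⟩, ?_⟩
      · simpa using e1
      · intro j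
        have := e2 j
        simpa using this
    · intro x _ y _ hxy
      exact Finsupp.equivFunOnFinite.symm.injective hxy
    · intro l hl
      rw [Finset.mem_filter, Finset.mem_finsuppAntidiag] at hl
      refine ⟨fun i => l i, ?_, ?_⟩
      · exact (t_mom n _ d _).1.2 ⟨hl.1.1, fun i => hl.2 i⟩
      · ext i
        rfl
  rw [h1, dl_prod]
  have h3 : ∀ j : Fin n, f j * (1 - PowerSeries.X) =
      if (j : ℕ) < r then 1 - (PowerSeries.X : PowerSeries ℤ) ^ a j else 1 := by
    intro j
    simp only [hf]
    unfold ca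
    by_cases hj : (j : ℕ) < r
    · rw [if_pos hj, if_pos hj]
      have := moc_geo (a j)
      simpa using this
    · rw [if_neg hj, if_neg hj]
      have h4 : PowerSeries.mk (fun v => if (v : ℕ∞) < (⊤ : ℕ∞) then (1 : ℤ) else 0) =
          PowerSeries.mk 1 := by
        ext v
        rw [PowerSeries.coeff_mk, PowerSeries.coeff_mk, if_pos (ENat.natCast_lt_top v)]
        rfl
      rw [h4]
      exact PowerSeries.mk_one_mul_one_sub_eq_one ℤ
  have h5 : (∏ j ∈ (Finset.univ : Finset (Fin n)), f j) * (1 - PowerSeries.X) ^ n =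
      ∏ j : Fin n, (f j * (1 - PowerSeries.X)) := by
    rw [Finset.prod_mul_distrib, Finset.prod_const, Finset.card_univ, Fintype.card_fin]
  rw [h5]
  simp only [h3]
  rw [Fin.prod_univ_eq_prod_range
    (fun j => if j < r then 1 - (PowerSeries.X : PowerSeries ℤ) ^ a j else 1) n,
    Fin.prod_univ_eq_prod_range (fun j => 1 - (PowerSeries.X : PowerSeries ℤ) ^ a j) r]
  obtain ⟨e, rfl⟩ : ∃ e, n = r + e := ⟨n - r, by omega⟩
  rw [Finset.prod_range_add]
  have h6 : ∏ x ∈ Finset.range e, (if r + x < r then 1 - (PowerSeries.X : PowerSeries ℤ) ^ a (r + x)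
      else 1) = 1 := by
    refine Finset.prod_eq_one fun x _ => ?_
    rw [if_neg (by omega)]
  rw [h6, mul_one]
  refine Finset.prod_congr rfl fun x hx => ?_
  rw [if_pos (Finset.mem_range.1 hx)]

/-- The Hilbert function of a regular sequence. -/
theorem qhf_gen {K : Type} [Field K] {r n : ℕ} (hr : r ≤ n) (a : ℕ → ℕ) (J : Ideal (PR K n))
    (hJ : MC 0 (dl a r) J) (d : ℕ) : hf J d = (Mo (ca a r n) d).card := by
  have h1 := Pool.EG3.t_hsm (t_col t_FIN) t_hsb Pool.EG3.t_hgm K n 0 (dl a r) J hJ
  have h2 := moc_gen a hr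
  have h3 : PowerSeries.mk (fun i => (hf J i : ℤ)) =
      PowerSeries.mk (fun d => ((Mo (ca a r n) d).card : ℤ)) := by
    apply mul_right_cancel₀ (one_sub_X_ne n)
    rw [h1, ← h2, pow_zero, one_mul]
  have h4 := congrArg (PowerSeries.coeff d) h3
  rw [PowerSeries.coeff_mk, PowerSeries.coeff_mk] at h4
  exact_mod_cast h4

theorem hf_add {K : Type} [Field K] {n : ℕ} (I : Ideal (PR K n)) (d : ℕ) :
    hf I d + Module.finrank K ↥(homogeneousSubmodule (Fin n) K d ⊓
      Submodule.restrictScalars K I) = Module.finrank K ↥(fm K n d) := by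
  have := t_FIN K n d
  have h9 : Module.finrank K ↥(Submodule.restrictScalars K I ⊓ fm K n d) ≤
      Module.finrank K ↥(fm K n d) := Submodule.finrank_mono inf_le_right
  have h12 : Module.finrank K ↥(homogeneousSubmodule (Fin n) K d ⊓
      Submodule.restrictScalars K I) = Module.finrank K
    ↥(Submodule.restrictScalars K I ⊓ fm K n d) := by
    rw [inf_comm]
  rw [h12]
  unfold hf
  omega

/-- The partial sums. -/
theorem cnt_ok {r : ℕ} (a : Fin r → ℕ) (x : ℕ) :
    r ≤ (Finset.univ.filter fun j : Fin r => ∑ t ∈ Finset.Iic j, (a t - 1) ≤ x).card ∨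
      x < ∑ t : Fin r, if (t : ℕ) <
        (Finset.univ.filter fun j : Fin r => ∑ t ∈ Finset.Iic j, (a t - 1) ≤ x).card + 1
        then a t - 1 else 0 := by
  set q := (Finset.univ.filter fun j : Fin r => ∑ t ∈ Finset.Iic j, (a t - 1) ≤ x).card with hq
  by_cases hqr : r ≤ q
  · exact Or.inl hqr
  · right
    have hqr' : q < r := not_le.1 hqr
    by_contra hcon
    have hsum : ∑ t ∈ Finset.Iic (⟨q, hqr'⟩ : Fin r), (a t - 1) =
        ∑ t : Fin r, if (t : ℕ) < q + 1 then a t - 1 else 0 := by
      rw [← Finset.sum_filter]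
      refine Finset.sum_congr ?_ fun _ _ => rfl
      ext t
      rw [Finset.mem_Iic, Finset.mem_filter, Fin.le_def]
      simp only [Finset.mem_univ, true_and]
      omega
    rw [← hsum, not_lt] at hcon
    have hsub : Finset.Iic (⟨q, hqr'⟩ : Fin r) ⊆
        (Finset.univ.filter fun j : Fin r => ∑ t ∈ Finset.Iic j, (a t - 1) ≤ x) := by
      intro j hj
      rw [Finset.mem_filter]
      refine ⟨Finset.mem_univ _, le_trans ?_ hcon⟩
      exact Finset.sum_le_sum_of_subset (Finset.Iic_subset_Iic.2 (Finset.mem_Iic.1 hj))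
    have h1 := Finset.card_le_card hsub
    rw [← hq, Fin.card_Iic] at h1
    simp only at h1
    omega

/-- **Theorem.** The growth of few forms modulo a regular sequence. -/
theorem few (K : Type) [Field K] (n r : ℕ) (hr : r ≤ n)
    (I : Ideal (MvPolynomial (Fin n) K)) (f : Fin r → MvPolynomial (Fin n) K) (a : Fin r → ℕ)
    (hI : ∀ p ∈ I, ∀ d : ℕ, MvPolynomial.homogeneousComponent d p ∈ I)
    (hmono : Monotone a) (ha2 : ∀ i, 2 ≤ a i)
    (hfa : ∀ i, (f i).IsHomogeneous (a i)) (hfI : ∀ i, f i ∈ I)
    (hreg : RingTheory.Sequence.IsRegular (MvPolynomial (Fin n) K) (List.ofFn f)) :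
    (∀ m k : ℕ,
      Module.finrank K ↥(MvPolynomial.homogeneousSubmodule (Fin n) K m ⊓
          Submodule.restrictScalars K (Ideal.span (Set.range f))) + k ≤
        Module.finrank K ↥(MvPolynomial.homogeneousSubmodule (Fin n) K m ⊓
          Submodule.restrictScalars K I) →
      Module.finrank K ↥(MvPolynomial.homogeneousSubmodule (Fin n) K (m + 1) ⊓
          Submodule.restrictScalars K (Ideal.span (Set.range f))) + n * k ≤
        Module.finrank K ↥(MvPolynomial.homogeneousSubmodule (Fin n) K (m + 1) ⊓
          Submodule.restrictScalars K I) +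
        ∑ i ∈ Finset.range k, (i +
          (Finset.univ.filter fun j : Fin r => ∑ t ∈ Finset.Iic j, (a t - 1) ≤ m + i).card)) ∧
    (3 ≤ n → ∀ m k j : ℕ, j ≤ r → j + k ≤ n →
      (∑ t : Fin r, if (t : ℕ) < j then a t - 1 else 0) < m →
      (j = r ∨ m + k ≤ ∑ t : Fin r, if (t : ℕ) < j + 1 then a t - 1 else 0) →
      Module.finrank K ↥(MvPolynomial.homogeneousSubmodule (Fin n) K m ⊓
          Submodule.restrictScalars K I) =
        Module.finrank K ↥(MvPolynomial.homogeneousSubmodule (Fin n) K m ⊓
          Submodule.restrictScalars K (Ideal.span (Set.range f))) + k →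
      ∃ J : Ideal (MvPolynomial (Fin n) K),
        (∀ p ∈ J, ∀ s ∈ p.support, MvPolynomial.monomial s (1 : K) ∈ J) ∧
        (∀ s t : Fin n →₀ ℕ, s.degree = t.degree →
          MvPolynomial.monomial s (1 : K) ∈ J →
          (MonomialOrder.lex : MonomialOrder (Fin n)).toSyn s ≤
            (MonomialOrder.lex : MonomialOrder (Fin n)).toSyn t →
          MvPolynomial.monomial t (1 : K) ∈ J) ∧
        Module.finrank K
            ↥(MvPolynomial.homogeneousSubmodule (Fin n) K m ⊓
                Submodule.restrictScalars K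
                  (Ideal.span (Set.range fun i : Fin r => MvPolynomial.X (Fin.castLE hr i) ^ a i)
                    ⊔ J)) =
          Module.finrank K
            ↥(MvPolynomial.homogeneousSubmodule (Fin n) K m ⊓
              Submodule.restrictScalars K I) ∧
        Module.finrank K
            ↥(MvPolynomial.homogeneousSubmodule (Fin n) K (m + 1) ⊓
                Submodule.restrictScalars K
                  (Ideal.span (Set.range fun i : Fin r => MvPolynomial.X (Fin.castLE hr i) ^ a i)
                    ⊔ J)) ≤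
          Module.finrank K
            ↥(MvPolynomial.homogeneousSubmodule (Fin n) K (m + 1) ⊓
              Submodule.restrictScalars K I)) := by
  have hspan : Ideal.span (Set.range f) = Ideal.ofList (List.ofFn f) := by
    unfold Ideal.ofList
    congr 1
    ext p
    rw [Set.mem_range]
    constructor
    · rintro ⟨i, rfl⟩
      exact List.mem_ofFn.2 ⟨i, rfl⟩
    · intro h
      exact List.mem_ofFn.1 h
  rw [hspan]
  have hfin := fin_all K n r I f a hI hmono (fun i => le_trans one_le_two (ha2 i)) hfa hfI
    hreg.toIsWeaklyRegular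
  set F : Ideal (MvPolynomial (Fin n) K) := Ideal.ofList (List.ofFn f) with hF
  refine ⟨?_, ?_⟩
  · intro m k hk
    have e1 := hf_add I m
    have e2 := hf_add F m
    have e3 := hf_add I (m + 1)
    have e4 := hf_add F (m + 1)
    have h1 := hfin m k
      (fun i => (Finset.univ.filter fun j : Fin r => ∑ t ∈ Finset.Iic j, (a t - 1) ≤ m + i).card)
      (by omega) (fun i _ => cnt_ok a (m + i))
    have h2 : ∑ i ∈ Finset.range k,
        ((Finset.univ.filter fun j : Fin r => ∑ t ∈ Finset.Iic j, (a t - 1) ≤ m + i).card + i) =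
        ∑ i ∈ Finset.range k, (i +
          (Finset.univ.filter fun j : Fin r => ∑ t ∈ Finset.Iic j, (a t - 1) ≤ m + i).card) :=
      Finset.sum_congr rfl fun i _ => add_comm _ _
    rw [h2] at h1
    omega
  · intro h3 m k j hjr hjk hm1 hm2 hdim
    obtain ⟨a', ha', hmono', ha'0⟩ : ∃ a' : ℕ → ℕ, (∀ i : Fin r, a' i = a i) ∧ Monotone a' ∧
        2 ≤ a' 0 := by
      rcases Nat.eq_zero_or_pos r with hr | hr
      · subst hr
        exact ⟨fun _ => 2, fun i => i.elim0, monotone_const, le_rfl⟩
      · refine ⟨fun i => a ⟨min i (r - 1), by omega⟩, fun i => ?_, fun i j hij => ?_, ha2 _⟩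
        · have h1 : min (i : ℕ) (r - 1) = i := by have := i.isLt; omega
          exact congrArg a (Fin.ext h1)
        · exact hmono (Fin.le_def.2 (by simp only; omega))
    have hfun : a = fun i : Fin r => a' i := funext fun i => (ha' i).symm
    subst hfun
    have hso : ∀ j' ≤ r, (∑ t : Fin r, if (t : ℕ) < j' then a' t - 1 else 0) = so a' j' := by
      intro j' hj'
      unfold so
      rw [Fin.sum_univ_eq_sum_range (fun t => if t < j' then a' t - 1 else 0) r,
        ← Finset.sum_filter]
      refine Finset.sum_congr ?_ fun _ _ => rfl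
      ext t
      simp only [Finset.mem_filter, Finset.mem_range]
      omega
    rw [hso j hjr] at hm1
    obtain ⟨c, rfl⟩ : ∃ c, m = so a' j + c := ⟨m - so a' j, by omega⟩
    have hm2' : j = r ∨ (j < r ∧ c + k ≤ a' j - 1) := by
      rcases hm2 with h | h
      · exact Or.inl h
      · by_cases hj : j = r
        · exact Or.inl hj
        · right
          refine ⟨by omega, ?_⟩
          rw [hso (j + 1) (by omega)] at h
          have : so a' (j + 1) = so a' j + (a' j - 1) := Finset.sum_range_succ _ _
          omega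
    have hBk : Bk a' n r j c k :=
      { mono := hmono'
        two := ha'0
        rn := hr
        jr := hjr
        jk := hjk
        c1 := by omega
        cap := hm2'.imp id fun h => h.2 }
    have h'' : List.Forall₂ (fun (d : PR K n) (e : ℕ) => 1 ≤ e ∧ d.IsHomogeneous e)
        (List.ofFn f) (List.ofFn fun i : Fin r => a' i) := by
      rw [List.forall₂_iff_get]
      refine ⟨by simp, fun i h1 h2 => ?_⟩
      simp only [List.get_eq_getElem, List.getElem_ofFn]
      exact ⟨le_trans one_le_two (ha2 ⟨i, by simpa using h2⟩), hfa _⟩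
    have hM := t_rgm K n (List.ofFn f) (List.ofFn fun i : Fin r => a' i) h''
      hreg.toIsWeaklyRegular
    rw [show (List.ofFn fun i : Fin r => a' i).reverse = dl a' r from ofFn_reverse a' r, ← hF] at hM
    have hq := qhf_gen hr a' F hM
    have e1 := hf_add I (so a' j + c)
    have e2 := hf_add F (so a' j + c)
    have h1 := hfin (so a' j + c) k (fun _ => j) (by omega) (by
      intro i hi
      rcases hm2' with h | ⟨hj, h⟩
      · exact Or.inl (by omega)
      · right
        simp only
        rw [hso (j + 1) (by omega)]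
        have : so a' (j + 1) = so a' j + (a' j - 1) := Finset.sum_range_succ _ _
        omega)
    obtain ⟨J, hJ⟩ := few_lex hBk h3 I (by rw [← hq]; omega) (by
      rw [← hq]
      have h4 : ∑ i ∈ Finset.range k, (n - (j + i)) + ∑ i ∈ Finset.range k, (j + i) = n * k := by
        rw [← Finset.sum_add_distrib]
        have : ∀ i ∈ Finset.range k, n - (j + i) + (j + i) = n := by
          intro i hi
          rw [Finset.mem_range] at hi
          omega
        rw [Finset.sum_congr rfl this, Finset.sum_const, Finset.card_range, smul_eq_mul, mul_comm]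
      omega)
    exact ⟨J, hJ⟩

end Pool.KZ
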