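import Pool.Agent.H86.KZ.S

set_option autoImplicit false

namespace Pool.KZ

theorem sg_erase_lt {i j : ℕ} (T : Finset ℕ) (h : i < j) : sg i (T.erase j) = sg i T := by
  unfold sg
  congr 2
  ext t
  simp only [Finset.mem_filter, Finset.mem_erase]
  constructor
  · rintro ⟨⟨_, h1⟩, h2⟩
    exact ⟨h1, h2⟩
  · rintro ⟨h1, h2⟩
    exact ⟨⟨by omega, h1⟩, h2⟩

theorem sg_erase_gt {i j : ℕ} (T : Finset ℕ) (hi : i ∈ T) (h : i < j) :
    sg j (T.erase i) = - sg j T := by
  unfold sg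
  have h1 : (T.erase i).filter (fun t => t < j) = (T.filter (fun t => t < j)).erase i := by
    ext t
    simp only [Finset.mem_filter, Finset.mem_erase]
    tauto
  have h2 : i ∈ T.filter (fun t => t < j) := by simp [hi, h]
  rw [h1, ← Finset.card_erase_add_one h2, pow_succ]
  ring

theorem sg_swap {i j : ℕ} (T : Finset ℕ) (hi : i ∈ T) (hj : j ∈ T) (h : i ≠ j) :
    sg j T * sg i (T.erase j) = - (sg i T * sg j (T.erase i)) := by
  rcases lt_or_gt_of_ne h with h | h
  · rw [sg_erase_lt T h, sg_erase_gt T hi h]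
    ring
  · rw [sg_erase_lt T h, sg_erase_gt T hj h]
    ring

theorem t_kdd : KDDStmt := by
  intro K M _ _ _ x hx c
  funext T
  change ∑ j ∈ T, sg j T • x j (∑ i ∈ T.erase j, sg i (T.erase j) •
    x i (c ((T.erase j).erase i))) = 0
  have h1 : ∀ j ∈ T, sg j T • x j (∑ i ∈ T.erase j, sg i (T.erase j) •
      x i (c ((T.erase j).erase i))) =
      ∑ i ∈ T.erase j, (sg j T * sg i (T.erase j)) • x j (x i (c ((T.erase j).erase i))) := by
    intro j _
    rw [map_sum, Finset.smul_sum]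
    refine Finset.sum_congr rfl fun i _ => ?_
    rw [map_zsmul, smul_smul]
  rw [Finset.sum_congr rfl h1, Finset.sum_sigma']
  refine Finset.sum_involution (fun p _ => ⟨p.2, p.1⟩) ?_ ?_ ?_ ?_
  · rintro ⟨j, i⟩ hp
    simp only [Finset.mem_sigma, Finset.mem_erase] at hp
    obtain ⟨hj, hij, hi⟩ := hp
    simp only
    rw [sg_swap T hi hj hij, hx j i, Finset.erase_right_comm, neg_smul, neg_add_cancel]
  · rintro ⟨j, i⟩ hp _ h
    simp only [Finset.mem_sigma, Finset.mem_erase] at hp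
    simp only [Sigma.mk.injEq] at h
    exact hp.2.1 h.1
  · rintro ⟨j, i⟩ hp
    simp only [Finset.mem_sigma, Finset.mem_erase] at hp ⊢
    exact ⟨hp.2.2, Ne.symm hp.2.1, hp.1⟩
  · rintro ⟨j, i⟩ hp
    rfl

end Pool.KZ
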