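import Pool.Agent.H45.EG4.S

/-!
# KZ: growth of few forms modulo a regular sequence, definitions and statements

The module of functions `Finset ℕ → M` is used as the (cohomological) Koszul complex of a family
`x 0, x 1, ...` of commuting endomorphisms of `M`.
-/

set_option autoImplicit false

namespace Pool.KZ

open MvPolynomial Pool.EGH
open Pool.EG3 (MC)
open Pool.EG4 (dl so)

section Kos

variable {K : Type} [Field K] {M : Type} [AddCommGroup M] [Module K M]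

/-- The sign of `j` with respect to `T`. -/
def sg (j : ℕ) (T : Finset ℕ) : ℤ := (-1) ^ (T.filter (fun i => i < j)).card

/-- The Koszul differential. -/
def kd (x : ℕ → M →ₗ[K] M) : (Finset ℕ → M) →ₗ[K] (Finset ℕ → M) where
  toFun c T := ∑ j ∈ T, sg j T • x j (c (T.erase j))
  map_add' c c' := by
    funext T
    simp only [Pi.add_apply, map_add, smul_add, Finset.sum_add_distrib]
  map_smul' r c := by
    funext T
    simp only [Pi.smul_apply, map_smul, RingHom.id_apply, Finset.smul_sum]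
    exact Finset.sum_congr rfl fun j _ => smul_comm _ _ _

/-- The cochains with values in `G` on the subsets of `J` with `p` elements. -/
def Cc (J : Finset ℕ) (p : ℤ) (G : Submodule K M) : Submodule K (Finset ℕ → M) where
  carrier := {c | ∀ T, c T ∈ G ∧ (¬ (T ⊆ J ∧ (T.card : ℤ) = p) → c T = 0)}
  add_mem' := fun ha hb T => ⟨add_mem (ha T).1 (hb T).1, fun h => by
    rw [Pi.add_apply, (ha T).2 h, (hb T).2 h, add_zero]⟩
  zero_mem' := fun _ => ⟨zero_mem _, fun _ => rfl⟩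
  smul_mem' := fun r _ h T => ⟨Submodule.smul_mem _ r (h T).1, fun h' => by
    rw [Pi.smul_apply, (h T).2 h', smul_zero]⟩

/-- The endomorphisms commute. -/
def Cm (x : ℕ → M →ₗ[K] M) : Prop := ∀ i j m, x i (x j m) = x j (x i m)

/-- The endomorphisms have degree one. -/
def Dg (x : ℕ → M →ₗ[K] M) (G : ℤ → Submodule K M) : Prop :=
  ∀ i s, ∀ m ∈ G s, x i m ∈ G (s + 1)

/-- The cohomology of the family `x j`, `j ∈ J`, vanishes at the place `p` in degree `s`. -/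
def Vn (x : ℕ → M →ₗ[K] M) (G : ℤ → Submodule K M) (J : Finset ℕ) (p s : ℤ) : Prop :=
  ∀ c ∈ Cc J p (G s), (∀ T ⊆ J, kd x c T = 0) →
    ∃ b ∈ Cc J (p - 1) (G (s - 1)), ∀ T ⊆ J, kd x b T = c T

end Kos

/-! ### Koszul complexes -/

/-- KDD: the square of the differential is zero. -/
def KDDStmt : Prop :=
  ∀ (K M : Type) [Field K] [AddCommGroup M] [Module K M] (x : ℕ → M →ₗ[K] M), Cm x →
    ∀ c, kd x (kd x c) = 0

/-- INB: one more member of the family, the general form. -/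
def INBStmt : Prop :=
  ∀ (K M : Type) [Field K] [AddCommGroup M] [Module K M] (x : ℕ → M →ₗ[K] M)
    (G : ℤ → Submodule K M) (J : Finset ℕ) (j : ℕ) (p s : ℤ), Cm x → Dg x G → j ∉ J →
    Vn x G J (p - 1) s → ∀ c ∈ Cc (insert j J) p (G s), (∀ T ⊆ insert j J, kd x c T = 0) →
    (∃ b ∈ Cc J (p - 1) (G (s - 1)), ∀ T ⊆ J, kd x b T = c T) →
    ∃ b ∈ Cc (insert j J) (p - 1) (G (s - 1)), ∀ T ⊆ insert j J, kd x b T = c T

/-- INS: one more member of the family. -/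
def INSStmt : Prop :=
  ∀ (K M : Type) [Field K] [AddCommGroup M] [Module K M] (x : ℕ → M →ₗ[K] M)
    (G : ℤ → Submodule K M) (J : Finset ℕ) (j : ℕ) (p s : ℤ), Cm x → Dg x G → j ∉ J →
    Vn x G J p s → Vn x G J (p - 1) s → Vn x G (insert j J) p s

/-- QUO: the quotient by a nonzerodivisor `f` of degree `a`. -/
def QUOStmt : Prop :=
  ∀ (K M M' : Type) [Field K] [AddCommGroup M] [Module K M] [AddCommGroup M'] [Module K M']
    (x : ℕ → M →ₗ[K] M) (x' : ℕ → M' →ₗ[K] M') (G : ℤ → Submodule K M)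
    (G' : ℤ → Submodule K M') (f : M →ₗ[K] M) (π : M →ₗ[K] M') (a : ℤ) (J : Finset ℕ)
    (p s : ℤ), Cm x → Dg x G → (∀ j m, f (x j m) = x j (f m)) → Function.Injective f →
    (∀ t, ∀ m ∈ G t, f m ∈ G (t + a)) → (∀ j m, π (x j m) = x' j (π m)) →
    (∀ m, π (f m) = 0) → (∀ t, ∀ m ∈ G t, π m = 0 → ∃ n ∈ G (t - a), f n = m) →
    (∀ t, ∀ m ∈ G t, π m ∈ G' t) → (∀ t, ∀ m ∈ G' t, ∃ n ∈ G t, π n = m) →
    Vn x G J p s → Vn x G J (p + 1) (s + 1 - a) → Vn x' G' J p s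

/-- An exact sequence `0 → E' → E → E₂ → 0` of graded modules with commuting endomorphisms. -/
structure SE {K E' E E₂ : Type} [Field K] [AddCommGroup E'] [Module K E'] [AddCommGroup E]
    [Module K E] [AddCommGroup E₂] [Module K E₂] (x' : ℕ → E' →ₗ[K] E') (x : ℕ → E →ₗ[K] E)
    (x₂ : ℕ → E₂ →ₗ[K] E₂) (G' : ℤ → Submodule K E') (G : ℤ → Submodule K E)
    (G₂ : ℤ → Submodule K E₂) (ι : E' →ₗ[K] E) (ω : E →ₗ[K] E₂) : Prop where
  cm : Cm x
  dg : Dg x G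
  inj : Function.Injective ι
  ωι : ∀ m, ω (ι m) = 0
  xι : ∀ j m, ι (x' j m) = x j (ι m)
  xω : ∀ j m, ω (x j m) = x₂ j (ω m)
  gι : ∀ t, ∀ m ∈ G' t, ι m ∈ G t
  gω : ∀ t, ∀ m ∈ G t, ω m ∈ G₂ t
  ex : ∀ t, ∀ m ∈ G t, ω m = 0 → ∃ n ∈ G' t, ι n = m
  su : ∀ t, ∀ m ∈ G₂ t, ∃ n ∈ G t, ω n = m

/-- SEI: injectivity on cohomology. -/
def SEIStmt : Prop :=
  ∀ (K E' E E₂ : Type) [Field K] [AddCommGroup E'] [Module K E'] [AddCommGroup E]
    [Module K E] [AddCommGroup E₂] [Module K E₂] (x' : ℕ → E' →ₗ[K] E') (x : ℕ → E →ₗ[K] E)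
    (x₂ : ℕ → E₂ →ₗ[K] E₂) (G' : ℤ → Submodule K E') (G : ℤ → Submodule K E)
    (G₂ : ℤ → Submodule K E₂) (ι : E' →ₗ[K] E) (ω : E →ₗ[K] E₂), SE x' x x₂ G' G G₂ ι ω →
    ∀ (J : Finset ℕ) (p s : ℤ), Vn x' G' J p s → ∀ c ∈ Cc J p (G s), (∀ T ⊆ J, kd x c T = 0) →
    (∃ b ∈ Cc J (p - 1) (G₂ (s - 1)), ∀ T ⊆ J, kd x₂ b T = ω (c T)) →
    ∃ b ∈ Cc J (p - 1) (G (s - 1)), ∀ T ⊆ J, kd x b T = c T

/-- SES: surjectivity on cocycles. -/
def SESStmt : Prop :=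
  ∀ (K E' E E₂ : Type) [Field K] [AddCommGroup E'] [Module K E'] [AddCommGroup E]
    [Module K E] [AddCommGroup E₂] [Module K E₂] (x' : ℕ → E' →ₗ[K] E') (x : ℕ → E →ₗ[K] E)
    (x₂ : ℕ → E₂ →ₗ[K] E₂) (G' : ℤ → Submodule K E') (G : ℤ → Submodule K E)
    (G₂ : ℤ → Submodule K E₂) (ι : E' →ₗ[K] E) (ω : E →ₗ[K] E₂), SE x' x x₂ G' G G₂ ι ω →
    ∀ (J : Finset ℕ) (p s : ℤ), Vn x' G' J (p + 1) (s + 1) → ∀ c ∈ Cc J p (G₂ s),
    (∀ T ⊆ J, kd x₂ c T = 0) →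
    ∃ b ∈ Cc J p (G s), (∀ T ⊆ J, kd x b T = 0) ∧ ∀ T, ω (b T) = c T

/-- EIG: the eigenvalue argument. -/
def EIGStmt : Prop :=
  ∀ (K V V' : Type) [Field K] [IsAlgClosed K] [AddCommGroup V] [Module K V] [AddCommGroup V']
    [Module K V'] (Z B : Submodule K V) (Z' B' : Submodule K V') (α β : V →ₗ[K] V'),
    Module.Finite K Z → B ≤ Z → (∀ z ∈ Z, α z ∈ Z') → (∀ z ∈ Z, β z ∈ Z') →
    (∀ b ∈ B, α b ∈ B') → (∀ b ∈ B, β b ∈ B') → B' ≤ Z' →
    (∀ z' ∈ Z', ∃ z ∈ Z, z' - α z ∈ B') → (∀ z ∈ Z, α z ∈ B' → z ∈ B) →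
    (∀ (t : K), ∀ z ∈ Z, β z - t • α z ∈ B' → z ∈ B) → Z ≤ B

/-! ### Linear forms -/

section Lin

variable {K : Type} [Field K] {N : ℕ}

/-- The pieces of the polynomial ring modulo `Q`, all integral degrees. -/
noncomputable def gz (Q : Ideal (PR K N)) (s : ℤ) : Submodule K (PR K N ⧸ Q) :=
  if 0 ≤ s then gp Q s.toNat else ⊥

/-- Multiplication by a polynomial on the quotient by `Q`. -/
noncomputable def mu (Q : Ideal (PR K N)) :
    PR K N →ₗ[K] (PR K N ⧸ Q) →ₗ[K] (PR K N ⧸ Q) :=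
  (LinearMap.mul K (PR K N ⧸ Q)).comp (Ideal.Quotient.mkₐ K Q).toLinearMap

/-- The vanishing condition: more than `r` or below the sum of the first `q` numbers `a i - 1`. -/
def cd (a : ℕ → ℕ) (r q : ℕ) (s : ℤ) : Prop := r < q ∨ s < (so a q : ℤ)

end Lin

/-- GZM: multiplication by forms. -/
def GZMStmt : Prop :=
  ∀ (K : Type) [Field K] (N : ℕ) (Q : Ideal (PR K N)) (a : ℕ) (f : PR K N), f ∈ fm K N a →
    ∀ s, ∀ z ∈ gz Q s, mu Q f z ∈ gz Q (s + a)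

/-- REG: independent linear forms are a regular sequence. -/
def REGStmt : Prop :=
  ∀ (K : Type) [Field K] (N : ℕ) (l : ℕ → PR K N) (J : Finset ℕ), (∀ j, l j ∈ fm K N 1) →
    LinearIndepOn K l (J : Set ℕ) → ∀ p s : ℤ, p < J.card →
    Vn (fun j => mu (⊥ : Ideal (PR K N)) (l j)) (gz ⊥) J p s

/-- HVI: independent linear forms modulo a regular sequence. -/
def HVIStmt : Prop :=
  ∀ (K : Type) [Field K] (N : ℕ) (a : ℕ → ℕ), Monotone a → 1 ≤ a 0 → ∀ (r : ℕ)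
    (Q : Ideal (PR K N)), MC 0 (dl a r) Q → ∀ (l : ℕ → PR K N) (J : Finset ℕ),
    (∀ j, l j ∈ fm K N 1) → LinearIndepOn K l (J : Set ℕ) → ∀ (q : ℕ) (s : ℤ), cd a r q s →
    Vn (fun j => mu Q (l j)) (gz Q) J (J.card - q) s

/-- HVA: any family of linear forms. -/
def HVAStmt : Prop :=
  ∀ (K : Type) [Field K] (N : ℕ) (a : ℕ → ℕ), Monotone a → 1 ≤ a 0 → ∀ (r : ℕ)
    (Q : Ideal (PR K N)), MC 0 (dl a r) Q → ∀ (l : ℕ → PR K N) (J : Finset ℕ),
    (∀ j, l j ∈ fm K N 1) → ∀ c : ℕ, c ≤ Module.finrank K (Submodule.span K (l '' (J : Set ℕ))) →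
    ∀ (q : ℕ) (s : ℤ), cd a r q s → Vn (fun j => mu Q (l j)) (gz Q) J (c - q) s

/-! ### Dual polynomials -/

section Dual

variable {K : Type} [Field K] {M : Type} [AddCommGroup M] [Module K M] {k : ℕ}

/-- The linear maps from the polynomials in `k` variables to `M`. -/
abbrev EE (K : Type) [Field K] (M : Type) [AddCommGroup M] [Module K M] (k : ℕ) : Type :=
  MvPolynomial (Fin k) K →ₗ[K] M

/-- Contraction by a polynomial. -/
noncomputable def ct (w : MvPolynomial (Fin k) K) : EE K M k →ₗ[K] EE K M k where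
  toFun g := g.comp (LinearMap.mulLeft K w)
  map_add' _ _ := by ext; rfl
  map_smul' _ _ := by ext; rfl

/-- The maps of degree `u` with values in `G`. -/
def Eg (G : Submodule K M) (u : ℤ) : Submodule K (EE K M k) where
  carrier := {g | ∀ h, g h ∈ G ∧ ∀ v : ℕ, (v : ℤ) ≠ u → g (homogeneousComponent v h) = 0}
  add_mem' := fun ha hb h => ⟨add_mem (ha h).1 (hb h).1, fun v hv => by
    rw [LinearMap.add_apply, (ha h).2 v hv, (hb h).2 v hv, add_zero]⟩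
  zero_mem' := fun _ => ⟨zero_mem _, fun _ _ => rfl⟩
  smul_mem' := fun r _ hg h => ⟨Submodule.smul_mem _ r (hg h).1, fun v hv => by
    rw [LinearMap.smul_apply, (hg h).2 v hv, smul_zero]⟩

/-- The pieces of total degree `ν`. -/
def Ez (G : ℤ → Submodule K M) (ν : ℤ) (s : ℤ) : Submodule K (EE K M k) := Eg (G s) (ν - s)

/-- The action of `∑ i, y i ⊗ X i`. -/
noncomputable def xe (y : ℕ → Fin k → M →ₗ[K] M) (j : ℕ) : EE K M k →ₗ[K] EE K M k where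
  toFun g := ∑ i, (y j i).comp (ct (X i) g)
  map_add' g g' := by
    simp only [map_add, LinearMap.comp_add, Finset.sum_add_distrib]
  map_smul' r g := by
    simp only [map_smul, LinearMap.comp_smul, Finset.smul_sum, RingHom.id_apply]

end Dual

/-- XEB: basic properties. -/
def XEBStmt : Prop :=
  ∀ (K M : Type) [Field K] [AddCommGroup M] [Module K M] (G : ℤ → Submodule K M) (k : ℕ)
    (y : ℕ → Fin k → M →ₗ[K] M), (∀ j i s, ∀ m ∈ G s, y j i m ∈ G (s + 1)) →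
    (∀ j i j' i' m, y j i (y j' i' m) = y j' i' (y j i m)) →
    Cm (xe (k := k) y) ∧ (∀ ν, Dg (xe (k := k) y) (Ez G ν)) ∧
    (∀ (w : MvPolynomial (Fin k) K) (j : ℕ) (g : EE K M k), ct w (xe y j g) = xe y j (ct w g)) ∧
    ∀ (w : MvPolynomial (Fin k) K), w ∈ homogeneousSubmodule (Fin k) K 1 → ∀ ν s : ℤ,
      ∀ g ∈ Ez (k := k) G ν s, ct w g ∈ Ez (k := k) G (ν - 1) s

/-- EXA: the exact sequence of a linear form `w ≠ 0`; the matrix `B` describes the projection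
along `w`. -/
def EXAStmt : Prop :=
  ∀ (K M : Type) [Field K] [AddCommGroup M] [Module K M] (G : ℤ → Submodule K M) (k : ℕ)
    (y : ℕ → Fin (k + 1) → M →ₗ[K] M), (∀ j i s, ∀ m ∈ G s, y j i m ∈ G (s + 1)) →
    (∀ j i j' i' m, y j i (y j' i' m) = y j' i' (y j i m)) →
    ∀ b : Fin (k + 1) → K, b ≠ 0 →
    ∃ (B : Fin k → Fin (k + 1) → K) (ι : EE K M k →ₗ[K] EE K M (k + 1)),
      (∀ a : Fin k → K, (∀ i, ∑ i', a i' * B i' i = 0) → a = 0) ∧
      ∀ ν : ℤ, SE (xe (fun j i' => ∑ i, B i' i • y j i)) (xe y) (xe y) (Ez G ν) (Ez G ν)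
        (Ez G (ν - 1)) ι (ct (∑ i, b i • X i))

/-- FIE: finite dimension. -/
def FIEStmt : Prop :=
  ∀ (K M : Type) [Field K] [AddCommGroup M] [Module K M] (G : Submodule K M) (k : ℕ) (u : ℤ),
    Module.Finite K G → ∀ (J : Finset ℕ) (p : ℤ), Module.Finite K ↥(Cc J p (Eg (k := k) G u))

/-- ONE: the case of one variable. -/
def ONEStmt : Prop :=
  ∀ (K M : Type) [Field K] [AddCommGroup M] [Module K M] (G : ℤ → Submodule K M)
    (y : ℕ → Fin 1 → M →ₗ[K] M) (J : Finset ℕ) (p s ν : ℤ), s + 1 ≤ ν →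
    Vn (fun j => y j 0) G J p s → Vn (xe y) (Ez G ν) J p s

/-- VAN: the vanishing theorem. -/
def VANStmt : Prop :=
  ∀ (K M : Type) [Field K] [IsAlgClosed K] [AddCommGroup M] [Module K M]
    (G : ℤ → Submodule K M) (L : Type) [AddCommGroup L] [Module K L]
    (θ : L →ₗ[K] M →ₗ[K] M) (cnd : ℕ → ℤ → Prop), (∀ s, Module.Finite K (G s)) →
    (∀ l s, ∀ m ∈ G s, θ l m ∈ G (s + 1)) → (∀ l l' m, θ l (θ l' m) = θ l' (θ l m)) →
    (∀ q s, cnd q s → cnd (q + 1) s) → (∀ q s t, cnd q s → t ≤ s → cnd q t) →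
    (∀ (l : ℕ → L) (J : Finset ℕ) (c : ℕ),
      c ≤ Module.finrank K (Submodule.span K (l '' (J : Set ℕ))) → ∀ q s, cnd q s →
      Vn (fun j => θ (l j)) G J (c - q) s) →
    ∀ (k : ℕ) (l : ℕ → Fin (k + 1) → L) (J : Finset ℕ) (c : ℕ),
      (∀ a : Fin (k + 1) → K, a ≠ 0 →
        c ≤ Module.finrank K (Submodule.span K ((fun j => ∑ i, a i • l j i) '' (J : Set ℕ)))) →
      ∀ (q : ℕ) (s ν : ℤ), cnd q (s + k) → s + 1 ≤ ν →
        Vn (xe fun j i => θ (l j i)) (Ez G ν) J (c - k - q) s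

/-! ### Growth -/

/-- HYP: a hyperplane `V'` of `V` and few linear forms sending `V` to `A_1 V'`. -/
def HYPStmt : Prop :=
  ∀ (K : Type) [Field K] [IsAlgClosed K] (N : ℕ) (a : ℕ → ℕ), Monotone a → 1 ≤ a 0 →
    ∀ (r : ℕ) (Q : Ideal (PR K N)), MC 0 (dl a r) Q → ∀ (m k q : ℕ)
    (V : Submodule K (PR K N ⧸ Q)), V ≤ gp Q m → Module.finrank K V = k + 1 →
    (r ≤ q ∨ m + k < so a (q + 1)) →
    ∃ V' ≤ V, Module.finrank K V' = k ∧ ∃ (w : PR K N ⧸ Q) (L : Submodule K (PR K N)),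
      w ∈ V ∧ w ∉ V' ∧ L ≤ fm K N 1 ∧ Module.finrank K L ≤ q + k ∧
      ∀ l ∈ fm K N 1, mu Q l w ∈ gp Q 1 * V' → l ∈ L

/-- GRO: the growth of a space of dimension `k`. -/
def GROStmt : Prop :=
  ∀ (K : Type) [Field K] [IsAlgClosed K] (N : ℕ) (a : ℕ → ℕ), Monotone a → 1 ≤ a 0 →
    ∀ (r : ℕ) (Q : Ideal (PR K N)), MC 0 (dl a r) Q → ∀ (m k : ℕ) (q : ℕ → ℕ)
    (V : Submodule K (PR K N ⧸ Q)), V ≤ gp Q m → Module.finrank K V = k →
    (∀ i < k, r ≤ q i ∨ m + i < so a (q i + 1)) →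
    N * k ≤ dg Q V + ∑ i ∈ Finset.range k, (q i + i)

/-- FIN: the growth of homogeneous ideals, any field. -/
def FINStmt' : Prop :=
  ∀ (K : Type) [Field K] (n r : ℕ) (I : Ideal (MvPolynomial (Fin n) K))
    (f : Fin r → MvPolynomial (Fin n) K) (a : Fin r → ℕ), Hg I →
    Monotone a → (∀ i, 1 ≤ a i) → (∀ i, (f i).IsHomogeneous (a i)) → (∀ i, f i ∈ I) →
    RingTheory.Sequence.IsWeaklyRegular (MvPolynomial (Fin n) K) (List.ofFn f) →
    ∀ (m k : ℕ) (q : ℕ → ℕ), hf I m + k ≤ hf (Ideal.ofList (List.ofFn f)) m →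
    (∀ i < k, r ≤ q i ∨ m + i < ∑ t : Fin r, if (t : ℕ) < q i + 1 then a t - 1 else 0) →
    hf I (m + 1) + n * k ≤
      hf (Ideal.ofList (List.ofFn f)) (m + 1) + ∑ i ∈ Finset.range k, (q i + i)

end Pool.KZ
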